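import Pool.Agent.H84.SL.Targets
import Pool.Agent.H58.LV.DFI

/-!
# MP_70ba79_ag: row `REG` of the board `slg_modules`
-/

set_option autoImplicit false

namespace Pool.Agent.H26.SL

open SC Pool.Agent.H27.LV Pool.Agent.H84.SL

section

variable {k K : Type} [Field k] [Field K] [Algebra k K]

theorem tr_mul (F : IntermediateField k K) (f : F) (x : K) :
    tr F ((f : K) * x) = (f : K) * tr F x := by
  unfold tr
  have h : (f : K) * x = f • x := rfl
  rw [h, map_smul, smul_eq_mul, map_mul]
  rfl

theorem tr_dual [CharZero k] (F : IntermediateField k K) (n : ℕ) (b : Module.Basis (Fin n) F K)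
    (j : Fin n) : ∃ ω : K, ω ≠ 0 ∧ ∀ z, tr F (ω * z) = algebraMap F K (b.repr z j) := by
  have hfin : FiniteDimensional F K := Module.Finite.of_basis b
  have hcz : CharZero F := charZero_of_injective_algebraMap (algebraMap k F).injective
  have hsep : Algebra.IsSeparable F K := inferInstance
  have hnd := traceForm_nondegenerate F K
  refine ⟨(Algebra.traceForm F K).dualBasis hnd b j, Module.Basis.ne_zero _ _, fun z => ?_⟩
  unfold tr
  congr 1
  have h1 : ∀ i, Algebra.trace F K ((Algebra.traceForm F K).dualBasis hnd b j * b i) =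
      if i = j then 1 else 0 := by
    intro i
    have h := LinearMap.BilinForm.apply_dualBasis_left (B := Algebra.traceForm F K) hnd b j i
    rw [Algebra.traceForm_apply] at h
    exact h
  conv_lhs => rw [← b.sum_repr z]
  rw [Finset.mul_sum, map_sum]
  have h2 : ∀ i ∈ Finset.univ, Algebra.trace F K
      ((Algebra.traceForm F K).dualBasis hnd b j * (b.repr z i • b i)) =
        if i = j then b.repr z i else 0 := by
    intro i _
    rw [mul_smul_comm, map_smul, h1 i, smul_eq_mul]
    split_ifs <;> simp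
  rw [Finset.sum_congr rfl h2, Finset.sum_ite_eq' Finset.univ j, if_pos (Finset.mem_univ j)]

end

section

variable {k K : Type} [Field k] [IsAlgClosed k] [CharZero k] [Field K] [Algebra k K]
  [Algebra.EssFiniteType k K]

theorem transc_sub {t : K} (ht : Transcendental k t) (c : k) :
    Transcendental k (t - algebraMap k K c) := by
  intro h
  apply ht
  have h2 := h.add (isAlgebraic_algebraMap c)
  rwa [sub_add_cancel] at h2

theorem transc_inv {t : K} (ht : Transcendental k t) : Transcendental k t⁻¹ := by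
  intro h
  apply ht
  have h2 := h.inv
  rwa [inv_inv] at h2

theorem adjoin_sub (t : K) (c : k) : IntermediateField.adjoin k {t} =
    IntermediateField.adjoin k {t - algebraMap k K c} := by
  apply le_antisymm
  · rw [IntermediateField.adjoin_simple_le_iff]
    have h1 : t - algebraMap k K c ∈ IntermediateField.adjoin k {t - algebraMap k K c} :=
      IntermediateField.mem_adjoin_simple_self k _
    have h2 := add_mem h1 ((IntermediateField.adjoin k {t - algebraMap k K c}).algebraMap_mem c)
    rwa [sub_add_cancel] at h2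
  · rw [IntermediateField.adjoin_simple_le_iff]
    exact sub_mem (IntermediateField.mem_adjoin_simple_self k _)
      ((IntermediateField.adjoin k {t}).algebraMap_mem c)

theorem adjoin_inv (t : K) : IntermediateField.adjoin k {t} =
    IntermediateField.adjoin k {t⁻¹} := by
  apply le_antisymm
  · rw [IntermediateField.adjoin_simple_le_iff]
    have h1 : t⁻¹ ∈ IntermediateField.adjoin k {t⁻¹} :=
      IntermediateField.mem_adjoin_simple_self k _
    have h2 := inv_mem h1
    rwa [inv_inv] at h2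
  · rw [IntermediateField.adjoin_simple_le_iff]
    exact inv_mem (IntermediateField.mem_adjoin_simple_self k _)

/-- the finite places -/
theorem fin_place (hLOC : Pool.Agent.H84.SL.T_LOC) (htr : Algebra.trdeg k K = 1) (D : Derivation k K K)
    (hD : D ≠ 0) (t : K) (F : IntermediateField k K) (ht : Transcendental k t)
    (hF : F = IntermediateField.adjoin k {t}) (n : ℕ) (b : Module.Basis (Fin n) F K)
    (r : Fin n → ℕ) (hA : Adp t F n b r) (j : Fin n) (ω : K)
    (hω : ∀ z, tr F (ω * z) = algebraMap F K (b.repr z j)) (v0 : DV k K) (c : k)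
    (h0 : 0 < v0.ord (t - algebraMap k K c)) :
    ge v0 (1 - v0.ord (t - algebraMap k K c)) ω := by
  classical
  obtain ⟨u, hu⟩ : ∃ u, u = t - algebraMap k K c := ⟨_, rfl⟩
  rw [← hu] at h0 ⊢
  have htF : t ∈ F := by rw [hF]; exact IntermediateField.mem_adjoin_simple_self k t
  have htu : t = u + algebraMap k K c := by rw [hu, sub_add_cancel]
  refine hLOC k K htr D hD u F (by rw [hu]; exact transc_sub ht c)
    (by rw [hF, hu]; exact adjoin_sub t c) ω ?_ v0 h0
  intro z hz w hw
  rw [hω]
  -- places above the finite ones where `z` has a pole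
  have hfin : {v : DV k K | v.ord z ≠ 0}.Finite := (pfm k K htr z).1
  obtain ⟨s, hs⟩ : ∃ s : Finset (DV k K), ∀ v, v ∈ s ↔ 0 ≤ v.ord t ∧ v.ord z < 0 := by
    refine ⟨(hfin.subset (t := {v : DV k K | 0 ≤ v.ord t ∧ v.ord z < 0})
      fun v hv => ne_of_lt hv.2).toFinset, fun v => ?_⟩
    rw [Set.Finite.mem_toFinset]
    rfl
  have hch : ∀ v : DV k K, ∃ cv : k, 0 ≤ v.ord t → ge v 1 (t - algebraMap k K cv) := by
    intro v
    by_cases h : 0 ≤ v.ord t
    · obtain ⟨cv, hcv⟩ := (rat k K htr v).2 t h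
      exact ⟨cv, fun _ => hcv⟩
    · exact ⟨0, fun h' => absurd h' h⟩
  choose cv hcv using hch
  have hne : ∀ (a : k), t - algebraMap k K a ≠ 0 := by
    intro a h
    exact transc_sub ht a (by rw [h]; exact isAlgebraic_zero)
  have hu0 : u ≠ 0 := by rw [hu]; exact hne c
  have hcne : ∀ v ∈ s, cv v ≠ c := by
    intro v hv hc
    obtain ⟨h1, h2⟩ := (hs v).1 hv
    have h3 := hcv v h1
    rw [hc, ← hu] at h3
    have h4 : 0 < v.ord u := by
      rcases h3 with h3 | h3
      · exact absurd h3 hu0
      · omega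
    rcases hz v h4 with h5 | h5
    · rw [h5, v.ord_zero] at h2
      omega
    · omega
  obtain ⟨g, hg⟩ : ∃ g : K, g = ∏ v ∈ s, (t - algebraMap k K (cv v)) ^ (-(v.ord z)).toNat :=
    ⟨_, rfl⟩
  have hgF : g ∈ F := by
    rw [hg]
    exact prod_mem fun v _ => pow_mem (sub_mem htF (F.algebraMap_mem _)) _
  have hg0 : g ≠ 0 := by
    rw [hg]
    exact Finset.prod_ne_zero_iff.2 fun v _ => pow_ne_zero _ (hne _)
  have hgge : ∀ v : DV k K, 0 ≤ v.ord t → 0 ≤ v.ord g := by
    intro v hv
    rw [hg]
    refine v.ord_prod_nonneg _ _ fun w' _ => v.ord_pow_nonneg ?_ _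
    exact v.ord_sub_nonneg hv (by rw [v.ord_base])
  have hgz : ∀ v : DV k K, 0 ≤ v.ord t → ge v 0 (g * z) := by
    intro v hv
    by_cases hz0 : z = 0
    · left; rw [hz0, mul_zero]
    right
    rw [v.ord_mul' hg0 hz0]
    by_cases hvz : v.ord z < 0
    · have hvs : v ∈ s := (hs v).2 ⟨hv, hvz⟩
      have h1 : -(v.ord z) ≤ v.ord g := by
        rw [hg, ← Finset.mul_prod_erase s _ hvs, v.ord_mul' (pow_ne_zero _ (hne _))
          (Finset.prod_ne_zero_iff.2 fun v _ => pow_ne_zero _ (hne _)), v.ord_pow]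
        have h2 : 0 ≤ v.ord (∏ x ∈ s.erase v,
            (t - algebraMap k K (cv x)) ^ (-(x.ord z)).toNat) :=
          v.ord_prod_nonneg _ _ fun w' _ => v.ord_pow_nonneg
            (v.ord_sub_nonneg hv (by rw [v.ord_base])) _
        have h3 : 1 ≤ v.ord (t - algebraMap k K (cv v)) :=
          (hcv v hv).resolve_left (hne _)
        have h4 : ((-(v.ord z)).toNat : ℤ) = -(v.ord z) := Int.toNat_of_nonneg (by omega)
        rw [h4]
        nlinarith
      omega
    · have h1 := hgge v hv
      omega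
  have hwt : 0 ≤ w.ord t := by
    rw [htu]
    exact w.ord_add_nonneg hw.le (by rw [w.ord_base])
  have hwg : w.ord g = 0 := by
    rw [hg]
    refine Finset.prod_induction _ (fun x : K => x ≠ 0 ∧ w.ord x = 0) ?_ ⟨one_ne_zero, w.ord_one⟩
      ?_ |>.2
    · rintro x y ⟨hx, hx'⟩ ⟨hy, hy'⟩
      exact ⟨mul_ne_zero hx hy, by rw [w.ord_mul' hx hy, hx', hy']; rfl⟩
    · intro v hv
      refine ⟨pow_ne_zero _ (hne _), ?_⟩
      rw [w.ord_pow]
      have h1 : t - algebraMap k K (cv v) = algebraMap k K (c - cv v) + u := by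
        rw [htu, map_sub]
        ring
      have h2 : algebraMap k K (c - cv v) ≠ 0 := by
        rw [Ne, map_eq_zero, sub_eq_zero]
        exact fun h => hcne v hv h.symm
      rw [h1, (w.ord_add_eq_left h2 (fun _ => by rw [w.ord_base]; exact hw)).2, w.ord_base,
        mul_zero]
  have h1 := hA.fin (g * z) hgz j w hwt
  have h2 : b.repr (g * z) j = (⟨g, hgF⟩ : F) * b.repr z j := by
    have h3 : g * z = (⟨g, hgF⟩ : F) • z := rfl
    rw [h3, map_smul]
    rfl
  rw [h2, map_mul] at h1
  have h4 : algebraMap F K ⟨g, hgF⟩ = g := rfl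
  rw [h4] at h1
  have h5 : ge w 0 g⁻¹ := by
    right
    rw [w.ord_inv, hwg]
    rfl
  have h6 := h5.mul h1
  rwa [add_zero, inv_mul_cancel_left₀ hg0] at h6

/-- the infinite places -/
theorem inf_place (hLOC : Pool.Agent.H84.SL.T_LOC) (htr : Algebra.trdeg k K = 1) (D : Derivation k K K)
    (hD : D ≠ 0) (t : K) (F : IntermediateField k K) (ht : Transcendental k t)
    (hF : F = IntermediateField.adjoin k {t}) (n : ℕ) (b : Module.Basis (Fin n) F K)
    (r : Fin n → ℕ) (hA : Adp t F n b r) (j : Fin n) (ω : K)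
    (hω : ∀ z, tr F (ω * z) = algebraMap F K (b.repr z j)) (v0 : DV k K)
    (h0 : v0.ord t < 0) :
    ge v0 (1 + v0.ord t) (t ^ r j * ω) := by
  have htF : t ∈ F := by rw [hF]; exact IntermediateField.mem_adjoin_simple_self k t
  have h1 : v0.ord t⁻¹ = -(v0.ord t) := v0.ord_inv t
  have h2 := hLOC k K htr D hD t⁻¹ F (transc_inv ht) (by rw [hF]; exact adjoin_inv t)
    (t ^ r j * ω) ?_ v0 (by omega)
  · rw [h1] at h2
    have h3 : 1 - -(v0.ord t) = 1 + v0.ord t := by ring
    rwa [h3] at h2
  · intro z hz w hw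
    have hw' : w.ord t < 0 := by
      rw [w.ord_inv] at hw
      omega
    have h3 := hA.inf z (fun v hv => hz v (by rw [v.ord_inv]; omega)) j w hw'
    have h4 : t ^ r j * ω * z = (((⟨t, htF⟩ : F) ^ r j : F) : K) * (ω * z) := by
      rw [mul_assoc]
      rfl
    rw [h4, tr_mul, hω]
    have h5 : (((⟨t, htF⟩ : F) ^ r j : F) : K) = t ^ r j := rfl
    rw [h5, mul_comm]
    exact h3

end

theorem finsum_le_of_le {α : Type} {f g : α → ℤ} (hf : {v | f v ≠ 0}.Finite)
    (hg : {v | g v ≠ 0}.Finite) (h : ∀ v, f v ≤ g v) : ∑ᶠ v, f v ≤ ∑ᶠ v, g v := by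
  classical
  have hU := hf.union hg
  rw [finsum_eq_sum_of_support_subset f (s := hU.toFinset) (fun v hv => by
      rw [Set.Finite.coe_toFinset]; exact Or.inl hv),
    finsum_eq_sum_of_support_subset g (s := hU.toFinset) (fun v hv => by
      rw [Set.Finite.coe_toFinset]; exact Or.inr hv)]
  exact Finset.sum_le_sum fun v _ => h v

theorem pf_REG (hLOC : Pool.Agent.H84.SL.T_LOC) : T_REG := by
  intro k K _ _ _ _ _ _ htr D hD t F ht hF n b r hA j hj
  obtain ⟨ω, hω0, hω⟩ := tr_dual F n b j
  have hDt : D t ≠ 0 := by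
    intro h
    obtain ⟨a, ha⟩ := ker k K htr D hD t h
    exact ht (by rw [← ha]; exact isAlgebraic_algebraMap a)
  have ht0 : t ≠ 0 := by
    rintro rfl
    exact ht isAlgebraic_zero
  have hkey : ∀ v : DV k K, ordD v D ≤ v.ord ω + v.ord (D t) := by
    intro v
    by_cases hv : 0 ≤ v.ord t
    · obtain ⟨c, hc⟩ := (rat k K htr v).2 t hv
      have hne : t - algebraMap k K c ≠ 0 := fun h =>
        transc_sub ht c (by rw [h]; exact isAlgebraic_zero)
      have h1 : 1 ≤ v.ord (t - algebraMap k K c) := hc.resolve_left hne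
      have h2 := fin_place hLOC htr D hD t F ht hF n b r hA j ω hω v c (by omega)
      have h3 := h2.resolve_left hω0
      have h4 := ((dor k K htr D hD v).2.2 (t - algebraMap k K c) (by omega)).2
      rw [map_sub, D.map_algebraMap, sub_zero] at h4
      omega
    · have hv' : v.ord t < 0 := not_le.1 hv
      have h2 := inf_place hLOC htr D hD t F ht hF n b r hA j ω hω v hv'
      have h3 := h2.resolve_left (mul_ne_zero (pow_ne_zero _ ht0) hω0)
      rw [v.ord_mul' (pow_ne_zero _ ht0) hω0, v.ord_pow] at h3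
      have h4 := ((dor k K htr D hD v).2.2 t (by omega)).2
      have h5 : (2 : ℤ) ≤ (r j : ℤ) := by exact_mod_cast hj
      nlinarith
  have hfD : {v : DV k K | ordD v D ≠ 0}.Finite :=
    Pool.Agent.H58.LV.dfi dor pfm rat k K htr D hD
  obtain ⟨h1, h2⟩ := pfm k K htr ω
  obtain ⟨h3, h4⟩ := pfm k K htr (D t)
  have h5 : ∑ᶠ v : DV k K, (v.ord ω + v.ord (D t)) = 0 := by
    rw [finsum_add_distrib h1 h3, h2, h4, add_zero]
  have h6 : {v : DV k K | v.ord ω + v.ord (D t) ≠ 0}.Finite := by
    refine (h1.union h3).subset fun v hv => ?_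
    by_contra hcon
    rw [Set.mem_union, not_or] at hcon
    obtain ⟨h7, h8⟩ := hcon
    apply hv
    have h7' : v.ord ω = 0 := not_not.1 h7
    have h8' : v.ord (D t) = 0 := not_not.1 h8
    rw [h7', h8', add_zero]
  have h7 : ∑ᶠ v : DV k K, ordD v D ≤ ∑ᶠ v : DV k K, (v.ord ω + v.ord (D t)) :=
    finsum_le_of_le hfD h6 hkey
  unfold canDeg
  omega

end Pool.Agent.H26.SL
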